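import Mathlib

/-! Products of linear forms in the algebra `F[x_a : a ∈ α] / (x_a ^ 2)`.  An element is a function on
the finite subsets of `α` (its coefficients). -/

set_option autoImplicit false

open scoped BigOperators

namespace Pool.Agent.Q218.PF

variable {F : Type*} [Field F] {α : Type*} [DecidableEq α]

/-- multiplication of `P` by the linear form with coefficients `c` -/
def mv (c : α → F) (P : Finset α → F) : Finset α → F := fun I => ∑ i ∈ I, c i * P (I.erase i)

/-- the unit -/
def un : Finset α → F := fun I => if I = ∅ then 1 else 0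

/-- the product of `k` linear forms -/
def pr : (k : ℕ) → (Fin k → α → F) → Finset α → F
  | 0, _ => un
  | k + 1, c => mv (c 0) (pr k (Fin.tail c))

theorem mv_add (c d : α → F) (P : Finset α → F) : mv (c + d) P = mv c P + mv d P := by
  funext I
  simp only [mv, Pi.add_apply, add_mul, Finset.sum_add_distrib]

theorem mv_sub (c d : α → F) (P : Finset α → F) : mv (c - d) P = mv c P - mv d P := by
  funext I
  simp only [mv, Pi.sub_apply, sub_mul, Finset.sum_sub_distrib]

theorem mv_smul (t : F) (c : α → F) (P : Finset α → F) : mv (t • c) P = t • mv c P := by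
  funext I
  simp only [mv, Pi.smul_apply, smul_eq_mul, Finset.mul_sum, mul_assoc]

theorem mv_add' (c : α → F) (P Q : Finset α → F) : mv c (P + Q) = mv c P + mv c Q := by
  funext I
  simp only [mv, Pi.add_apply, mul_add, Finset.sum_add_distrib]

theorem mv_smul' (t : F) (c : α → F) (P : Finset α → F) : mv c (t • P) = t • mv c P := by
  funext I
  simp only [mv, Pi.smul_apply, smul_eq_mul, Finset.mul_sum]
  refine Finset.sum_congr rfl fun i _ => by ring

theorem mv_zero' (c : α → F) : mv c (0 : Finset α → F) = 0 := by
  funext I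
  simp [mv]

theorem mv_zero (P : Finset α → F) : mv (0 : α → F) P = 0 := by
  funext I
  simp [mv]

theorem mv_comm (c d : α → F) (P : Finset α → F) : mv c (mv d P) = mv d (mv c P) := by
  funext I
  simp only [mv, Finset.mul_sum]
  rw [Finset.sum_comm' (s' := fun j => I.erase j) (t' := I)]
  · refine Finset.sum_congr rfl fun i _ => Finset.sum_congr rfl fun j _ => ?_
    rw [Finset.erase_right_comm]
    ring
  · intro x y
    simp only [Finset.mem_erase]
    constructor
    · rintro ⟨h1, h2, h3⟩
      exact ⟨⟨Ne.symm h2, h1⟩, h3⟩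
    · rintro ⟨⟨h1, h2⟩, h3⟩
      exact ⟨h2, Ne.symm h1, h3⟩

/-- homogeneous elements -/
def Hom (k : ℕ) (P : Finset α → F) : Prop := ∀ I, I.card ≠ k → P I = 0

theorem hom_mv {k : ℕ} (c : α → F) {P : Finset α → F} (h : Hom k P) : Hom (k + 1) (mv c P) := by
  intro I hI
  refine Finset.sum_eq_zero fun i hi => ?_
  have h1 := Finset.card_erase_of_mem hi
  have h2 : 0 < I.card := Finset.card_pos.2 ⟨i, hi⟩
  rw [h (I.erase i) (by omega), mul_zero]

theorem hom_pr (k : ℕ) (c : Fin k → α → F) : Hom k (pr k c) := by
  induction k with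
  | zero =>
    intro I hI
    have : I ≠ ∅ := fun h => hI (by rw [h]; rfl)
    simp [pr, un, this]
  | succ k ih => exact hom_mv _ (ih _)

/-- a single variable -/
theorem mv_single (a : α) (P : Finset α → F) (I : Finset α) :
    mv (Pi.single a 1) P I = if a ∈ I then P (I.erase a) else 0 := by
  unfold mv
  split_ifs with h
  · rw [Finset.sum_eq_single a]
    · simp
    · intro b _ hb
      simp [hb]
    · intro h'
      exact absurd h h'
  · refine Finset.sum_eq_zero fun i hi => ?_
    have : i ≠ a := fun e => h (e ▸ hi)
    simp [this]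

theorem mv_single_sq (a : α) (P : Finset α → F) :
    mv (Pi.single a 1) (mv (Pi.single a 1) P) = 0 := by
  funext I
  rw [mv_single]
  split_ifs with h
  · rw [mv_single]
    simp
  · rfl

/-- the square of a sum -/
theorem sq_add (c d : α → F) (P : Finset α → F) :
    mv (c + d) (mv (c + d) P) = mv c (mv c P) + (2 : F) • mv c (mv d P) + mv d (mv d P) := by
  rw [mv_add c d (mv (c + d) P), mv_add c d P, mv_add', mv_add',
    mv_comm d c P]
  funext I
  simp only [Pi.add_apply, Pi.smul_apply, smul_eq_mul]
  ring

end Pool.Agent.Q218.PF
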