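import Pool.Agent.Q218.PF.Alg

/-! The number of linear forms which annihilate an element, and the number of pairs of variables
whose difference annihilates it. -/

set_option autoImplicit false
set_option linter.unusedSectionVars false

open scoped BigOperators Classical

namespace Pool.Agent.Q218.PF

variable {F : Type*} [Field F] [Fintype F] {α : Type*} [DecidableEq α] [Fintype α]

/-- the number of linear forms which annihilate `P` -/
noncomputable def K (P : Finset α → F) : Finset (α → F) := Finset.univ.filter fun c => mv c P = 0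

/-- the pairs of variables whose difference annihilates `P` -/
noncomputable def E (P : Finset α → F) : ℝ :=
  ∑ i : α, ∑ j : α, if mv (Pi.single i 1 - Pi.single j 1) P = 0 then (1 : ℝ) else 0

/-- the zeros of a quadratic form -/
noncomputable def Z (P : Finset α → F) (I : Finset α) : Finset (α → F) :=
  Finset.univ.filter fun c => mv c (mv c P) I = 0

theorem line (P : Finset α → F) (I : Finset α) (v a : α → F) (ha : mv a (mv a P) I ≠ 0) :
    (Finset.univ.filter fun t : F => mv (v + t • a) (mv (v + t • a) P) I = 0).card ≤ 2 := by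
  have key : ∀ t : F, mv (v + t • a) (mv (v + t • a) P) I =
      mv v (mv v P) I + 2 * (t * mv v (mv a P) I) + t ^ 2 * mv a (mv a P) I := by
    intro t
    rw [sq_add, mv_smul, mv_smul, mv_smul', mv_smul']
    simp only [Pi.add_apply, Pi.smul_apply, smul_eq_mul]
    ring
  rcases Finset.eq_empty_or_nonempty
    (Finset.univ.filter fun t : F => mv (v + t • a) (mv (v + t • a) P) I = 0) with h | ⟨t0, h0⟩
  · rw [h]
    simp
  · rw [Finset.mem_filter, key] at h0
    have hsub : (Finset.univ.filter fun t : F => mv (v + t • a) (mv (v + t • a) P) I = 0) ⊆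
        {t0, -(2 * mv v (mv a P) I) / mv a (mv a P) I - t0} := by
      intro t ht
      rw [Finset.mem_filter, key] at ht
      rw [Finset.mem_insert, Finset.mem_singleton]
      have h1 : (t - t0) * (mv a (mv a P) I * (t + t0) + 2 * mv v (mv a P) I) = 0 := by
        linear_combination ht.2 - h0.2
      rcases mul_eq_zero.1 h1 with h2 | h2
      · left
        exact sub_eq_zero.1 h2
      · right
        field_simp
        linear_combination h2
    exact (Finset.card_le_card hsub).trans Finset.card_le_two

theorem card_Z (P : Finset α → F) (I : Finset α) (a : α → F) (ha : mv a (mv a P) I ≠ 0) :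
    Fintype.card F * (Z P I).card ≤ 2 * Fintype.card F ^ Fintype.card α := by
  have h1 : ∑ t : F, ∑ v : α → F, (if mv (v + t • a) (mv (v + t • a) P) I = 0 then 1 else 0) =
      Fintype.card F * (Z P I).card := by
    have h2 : ∀ t : F, ∑ v : α → F,
        (if mv (v + t • a) (mv (v + t • a) P) I = 0 then 1 else 0) = (Z P I).card := by
      intro t
      rw [Z, Finset.card_filter]
      exact Fintype.sum_equiv (Equiv.addRight (t • a)) _ _ fun v => rfl
    rw [Finset.sum_congr rfl fun t _ => h2 t]
    simp
  rw [← h1, Finset.sum_comm]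
  calc ∑ v : α → F, ∑ t : F, (if mv (v + t • a) (mv (v + t • a) P) I = 0 then 1 else 0)
      ≤ ∑ v : α → F, 2 := Finset.sum_le_sum fun v _ => by
        have := line P I v a ha
        rwa [Finset.card_filter] at this
    _ = 2 * Fintype.card F ^ Fintype.card α := by
        simp [Finset.card_univ, mul_comm]

theorem exists_ne (h2 : (2 : F) ≠ 0) {k : ℕ} (hk : k + 2 ≤ Fintype.card α) {P : Finset α → F}
    (hP : Hom k P) (h0 : P ≠ 0) : ∃ (a : α → F) (I : Finset α), mv a (mv a P) I ≠ 0 := by
  by_contra hcon
  push Not at hcon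
  have hz : ∀ a : α → F, mv a (mv a P) = 0 := fun a => funext fun I => hcon a I
  obtain ⟨I, hI⟩ := Function.ne_iff.1 h0
  have hcard : I.card = k := by
    by_contra h
    exact hI (hP I h)
  have h3 : 1 < Iᶜ.card := by
    rw [Finset.card_compl]
    omega
  obtain ⟨i, hi, j, hj, hij⟩ := Finset.one_lt_card.1 h3
  rw [Finset.mem_compl] at hi hj
  have h4 := sq_add (Pi.single i (1 : F)) (Pi.single j 1) P
  rw [hz, hz, hz, zero_add, add_zero] at h4
  have h5 := congrFun h4 (insert i (insert j I))
  have h6 : mv (Pi.single i 1) (mv (Pi.single j 1) P) (insert i (insert j I)) = P I := by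
    have hni : i ∉ insert j I := by
      rw [Finset.mem_insert]
      tauto
    rw [mv_single, if_pos (Finset.mem_insert_self _ _), Finset.erase_insert hni, mv_single,
      if_pos (Finset.mem_insert_self _ _), Finset.erase_insert hj]
  rw [Pi.smul_apply, h6, smul_eq_mul] at h5
  rcases mul_eq_zero.1 h5.symm with h7 | h7
  · exact h2 h7
  · exact hI h7

/-- the number of translates through a point -/
noncomputable def f (P : Finset α → F) (v : α → F) : ℝ :=
  ∑ i : α, if mv (v - Pi.single i 1) P = 0 then (1 : ℝ) else 0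

theorem sum_f (P : Finset α → F) : ∑ v, f P v = Fintype.card α * (K P).card := by
  unfold f
  rw [Finset.sum_comm]
  have h : ∀ i : α, ∑ v : α → F, (if mv (v - Pi.single i 1) P = 0 then (1 : ℝ) else 0) =
      (K P).card := by
    intro i
    rw [K, Finset.card_filter]
    push_cast
    exact Fintype.sum_equiv (Equiv.subRight (Pi.single i (1 : F))) _ _ fun v => rfl
  rw [Finset.sum_congr rfl fun i _ => h i]
  simp

theorem sum_f_sq (P : Finset α → F) : ∑ v, f P v ^ 2 = (K P).card * E P := by
  have h : ∀ i j : α, ∑ v : α → F, (if mv (v - Pi.single i 1) P = 0 then (1 : ℝ) else 0) *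
      (if mv (v - Pi.single j 1) P = 0 then (1 : ℝ) else 0) =
      (K P).card * (if mv (Pi.single i 1 - Pi.single j 1) P = 0 then (1 : ℝ) else 0) := by
    intro i j
    have hd : ∀ v : α → F, mv (v - Pi.single j 1) P =
        mv (v - Pi.single i 1) P + mv (Pi.single i 1 - Pi.single j 1) P := by
      intro v
      rw [← mv_add]
      congr 1
      abel
    split_ifs with h1
    · have h2 : ∀ v : α → F, (if mv (v - Pi.single i 1) P = 0 then (1 : ℝ) else 0) *
          (if mv (v - Pi.single j 1) P = 0 then (1 : ℝ) else 0) =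
          (if mv (v - Pi.single i 1) P = 0 then (1 : ℝ) else 0) := by
        intro v
        rw [hd v, h1, add_zero]
        split_ifs <;> simp
      rw [Finset.sum_congr rfl fun v _ => h2 v, mul_one, K, Finset.card_filter]
      push_cast
      exact Fintype.sum_equiv (Equiv.subRight (Pi.single i (1 : F))) _ _ fun v => rfl
    · rw [mul_zero]
      refine Finset.sum_eq_zero fun v _ => ?_
      by_cases h2 : mv (v - Pi.single i 1) P = 0
      · have h3 : ¬ mv (v - Pi.single j 1) P = 0 := by
          rw [hd v, h2, zero_add]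
          exact h1
        rw [if_neg h3, mul_zero]
      · rw [if_neg h2, zero_mul]
  unfold f E
  simp only [pow_two, Finset.sum_mul_sum]
  rw [Finset.sum_comm, Finset.mul_sum]
  refine Finset.sum_congr rfl fun i _ => ?_
  rw [Finset.sum_comm, Finset.mul_sum]
  exact Finset.sum_congr rfl fun j _ => h i j

theorem K_pos (P : Finset α → F) : 0 < (K P).card :=
  Finset.card_pos.2 ⟨0, by rw [K, Finset.mem_filter]; exact ⟨Finset.mem_univ _, mv_zero P⟩⟩

theorem f_supp (P : Finset α → F) (I : Finset α) (v : α → F) (hv : f P v ≠ 0) : v ∈ Z P I := by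
  obtain ⟨i, -, hi⟩ := Finset.exists_ne_zero_of_sum_ne_zero hv
  have h1 : mv (v - Pi.single i 1) P = 0 := by
    by_contra h
    exact hi (if_neg h)
  rw [mv_sub, sub_eq_zero] at h1
  rw [Z, Finset.mem_filter]
  refine ⟨Finset.mem_univ _, ?_⟩
  rw [h1, mv_comm, h1, mv_single_sq]
  rfl

/-- **the main inequality** -/
theorem main_ne (h2 : (2 : F) ≠ 0) {k : ℕ} (hk : k + 2 ≤ Fintype.card α) {P : Finset α → F}
    (hP : Hom k P) (h0 : P ≠ 0) :
    (Fintype.card F : ℝ) * ((Fintype.card α : ℝ) ^ 2 * (K P).card) ≤
      2 * (Fintype.card F : ℝ) ^ Fintype.card α * E P := by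
  obtain ⟨a, I, ha⟩ := exists_ne h2 hk hP h0
  have hZ : (Fintype.card F : ℝ) * (Z P I).card ≤ 2 * (Fintype.card F : ℝ) ^ Fintype.card α := by
    exact_mod_cast card_Z P I a ha
  have hs : ∑ v ∈ Z P I, f P v = ∑ v, f P v :=
    Finset.sum_subset (Finset.subset_univ _) fun v _ hv => by
      by_contra h
      exact hv (f_supp P I v h)
  have hcs := sq_sum_le_card_mul_sum_sq (s := Z P I) (f := f P)
  rw [hs, sum_f] at hcs
  have hle : ∑ v ∈ Z P I, f P v ^ 2 ≤ ∑ v, f P v ^ 2 :=
    Finset.sum_le_sum_of_subset_of_nonneg (Finset.subset_univ _) fun v _ _ => sq_nonneg _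
  rw [sum_f_sq] at hle
  have hK : (0 : ℝ) < (K P).card := by exact_mod_cast K_pos P
  have hE : 0 ≤ E P := Finset.sum_nonneg fun i _ => Finset.sum_nonneg fun j _ => by
    split_ifs <;> norm_num
  have h3 : ((Fintype.card α : ℝ) * (K P).card) ^ 2 ≤ (Z P I).card * ((K P).card * E P) :=
    hcs.trans (mul_le_mul_of_nonneg_left hle (by positivity))
  have h4 : (Fintype.card α : ℝ) ^ 2 * (K P).card ≤ (Z P I).card * E P := by
    by_contra h
    push Not at h
    have := mul_lt_mul_of_pos_left h hK
    nlinarith
  calc (Fintype.card F : ℝ) * ((Fintype.card α : ℝ) ^ 2 * (K P).card)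
      ≤ (Fintype.card F : ℝ) * ((Z P I).card * E P) := by gcongr
    _ = (Fintype.card F : ℝ) * (Z P I).card * E P := by ring
    _ ≤ 2 * (Fintype.card F : ℝ) ^ Fintype.card α * E P := by gcongr

theorem K_zero : ((K (0 : Finset α → F)).card : ℝ) =
    (Fintype.card F : ℝ) ^ Fintype.card α := by
  have : K (0 : Finset α → F) = Finset.univ := by
    rw [K, Finset.filter_true_of_mem]
    intro c _
    exact mv_zero' c
  rw [this, Finset.card_univ, Fintype.card_fun]
  push_cast
  rfl

theorem E_zero : E (0 : Finset α → F) = (Fintype.card α : ℝ) ^ 2 := by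
  unfold E
  have : ∀ i j : α, (if mv (Pi.single i 1 - Pi.single j 1) (0 : Finset α → F) = 0 then (1 : ℝ)
      else 0) = 1 := fun i j => if_pos (mv_zero' _)
  simp only [this]
  simp [pow_two]

/-- **the inequality for all elements** -/
theorem main_all (h2 : (2 : F) ≠ 0) {k : ℕ} (hk : k + 2 ≤ Fintype.card α) {P : Finset α → F}
    (hP : Hom k P) :
    (Fintype.card F : ℝ) * ((Fintype.card α : ℝ) ^ 2 * (K P).card) ≤
      2 * (Fintype.card F : ℝ) ^ Fintype.card α * E P +
      ((Fintype.card F : ℝ) - 2) * ((Fintype.card α : ℝ) ^ 2 *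
        (Fintype.card F : ℝ) ^ Fintype.card α) * (if P = 0 then 1 else 0) := by
  by_cases h0 : P = 0
  · rw [if_pos h0, h0, K_zero, E_zero]
    apply le_of_eq
    ring
  · rw [if_neg h0, mul_zero, add_zero]
    exact main_ne h2 hk hP h0

/-- few linear forms annihilate a nonzero homogeneous element -/
theorem K_le {k : ℕ} {P : Finset α → F} (hP : Hom k P) (h0 : P ≠ 0) :
    (K P).card ≤ Fintype.card F ^ k := by
  obtain ⟨I, hI⟩ := Function.ne_iff.1 h0
  have hcard : I.card = k := by
    by_contra h
    exact hI (hP I h)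
  have h1 : (K P).card ≤ (Finset.univ : Finset (I → F)).card := by
    refine Finset.card_le_card_of_injOn (fun c (i : I) => c i) (fun _ _ => Finset.mem_univ _) ?_
    intro c hc d hd hcd
    rw [Finset.mem_coe, K, Finset.mem_filter] at hc hd
    have h2 : mv (c - d) P = 0 := by rw [mv_sub, hc.2, hd.2, sub_zero]
    have h3 : ∀ i ∈ I, (c - d) i = 0 := by
      intro i hi
      have := congrFun hcd ⟨i, hi⟩
      simp only at this
      rw [Pi.sub_apply, this, sub_self]
    have h4 : c - d = 0 := by
      funext j
      by_cases hj : j ∈ I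
      · exact h3 j hj
      · have h5 := congrFun h2 (insert j I)
        rw [mv, Finset.sum_insert hj, Finset.erase_insert hj,
          Finset.sum_eq_zero (fun i hi => by rw [h3 i hi, zero_mul]), add_zero] at h5
        rcases mul_eq_zero.1 h5 with h6 | h6
        · exact h6
        · exact absurd h6 hI
    exact sub_eq_zero.1 h4
  rw [Finset.card_univ, Fintype.card_fun, Fintype.card_coe, hcard] at h1
  exact h1

end Pool.Agent.Q218.PF
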