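import Pool.Agent.Q218.PF.Cnt

/-! Merging two variables. -/

set_option autoImplicit false
set_option linter.unusedSectionVars false

open scoped BigOperators Classical

namespace Pool.Agent.Q218.PF

section alg

variable {F : Type*} [Field F] {α : Type*} [DecidableEq α]

/-- the image under `x_i ↦ -x_j` -/
def mg (i j : α) (P : Finset α → F) : Finset α → F := fun I =>
  if i ∈ I then 0 else P I - if j ∈ I then P (insert i (I.erase j)) else 0

/-- the image of a linear form -/
def mc (i j : α) (c : α → F) : α → F := fun x =>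
  if x = i then 0 else c x - if x = j then c i else 0

theorem mg_mv {i j : α} (hij : i ≠ j) (c : α → F) (P : Finset α → F) :
    mg i j (mv c P) = mv (mc i j c) (mg i j P) := by
  funext I
  by_cases hi : i ∈ I
  · rw [mg, if_pos hi, mv]
    symm
    refine Finset.sum_eq_zero fun x hx => ?_
    by_cases hx2 : x = i
    · rw [mc, if_pos hx2, zero_mul]
    · rw [mg, if_pos (Finset.mem_erase.2 ⟨fun h => hx2 h.symm, hi⟩), mul_zero]
  · rw [mg, if_neg hi]
    by_cases hj : j ∈ I
    · obtain ⟨J, hJ⟩ : ∃ J, J = I.erase j := ⟨_, rfl⟩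
      have hjJ : j ∉ J := by rw [hJ]; simp
      have hI : I = insert j J := by rw [hJ, Finset.insert_erase hj]
      have hiJ : i ∉ J := fun h => hi (by rw [hI]; exact Finset.mem_insert_of_mem h)
      rw [if_pos hj, ← hJ, hI, mv, mv, mv, Finset.sum_insert hjJ, Finset.sum_insert hiJ,
        Finset.sum_insert hjJ, Finset.erase_insert hjJ, Finset.erase_insert hiJ]
      have e1 : mc i j c j * mg i j P J = (c j - c i) * P J := by
        rw [mc, if_neg (Ne.symm hij), if_pos rfl, mg, if_neg hiJ, if_neg hjJ, sub_zero]
      have e2 : ∑ x ∈ J, mc i j c x * mg i j P ((insert j J).erase x) =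
          ∑ x ∈ J, (c x * P ((insert j J).erase x) - c x * P ((insert i J).erase x)) := by
        refine Finset.sum_congr rfl fun x hx => ?_
        have hxi : x ≠ i := fun h => hiJ (h ▸ hx)
        have hxj : x ≠ j := fun h => hjJ (h ▸ hx)
        have h1 : i ∉ (insert j J).erase x := by
          rw [Finset.mem_erase, Finset.mem_insert]
          tauto
        have h2 : j ∈ (insert j J).erase x :=
          Finset.mem_erase.2 ⟨Ne.symm hxj, Finset.mem_insert_self _ _⟩
        have h3 : insert i (((insert j J).erase x).erase j) = (insert i J).erase x := by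
          rw [Finset.erase_right_comm, Finset.erase_insert hjJ, Finset.erase_insert_of_ne
            (Ne.symm hxi)]
        rw [mc, if_neg hxi, if_neg hxj, sub_zero, mg, if_neg h1, if_pos h2, h3]
        ring
      rw [e1, e2, Finset.sum_sub_distrib]
      ring
    · rw [if_neg hj, sub_zero, mv, mv]
      refine Finset.sum_congr rfl fun x hx => ?_
      have hxi : x ≠ i := fun h => hi (h ▸ hx)
      have hxj : x ≠ j := fun h => hj (h ▸ hx)
      have h1 : i ∉ I.erase x := fun h => hi (Finset.mem_of_mem_erase h)
      have h2 : j ∉ I.erase x := fun h => hj (Finset.mem_of_mem_erase h)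
      rw [mc, if_neg hxi, if_neg hxj, sub_zero, mg, if_neg h1, if_neg h2, sub_zero]

theorem mg_un (i j : α) : mg i j (un : Finset α → F) = un := by
  funext I
  rw [mg]
  split_ifs with h1 h2
  · have : I ≠ ∅ := fun h => by simp [h] at h1
    simp [un, this]
  · simp [un, Finset.insert_ne_empty]
  · rw [sub_zero]

theorem mg_pr {i j : α} (hij : i ≠ j) (k : ℕ) (c : Fin k → α → F) :
    mg i j (pr k c) = pr k fun t => mc i j (c t) := by
  induction k with
  | zero => exact mg_un i j
  | succ k ih =>
    rw [pr, mg_mv hij, ih]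
    rfl

theorem mg_iff {i j : α} (hij : i ≠ j) (P : Finset α → F) :
    mv (Pi.single i 1 - Pi.single j 1) P = 0 ↔ mg i j P = 0 := by
  have hval : ∀ I, mv (Pi.single i 1 - Pi.single j 1) P I =
      (if i ∈ I then P (I.erase i) else 0) - if j ∈ I then P (I.erase j) else 0 := by
    intro I
    rw [mv_sub, Pi.sub_apply, mv_single, mv_single]
  constructor
  · intro h
    funext I
    rw [mg]
    split_ifs with h1 h2
    · rfl
    · have h3 := congrFun h (insert i I)
      rw [hval, if_pos (Finset.mem_insert_self _ _), Finset.erase_insert h1,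
        if_pos (Finset.mem_insert_of_mem h2), Finset.erase_insert_of_ne hij] at h3
      exact h3
    · have h3 := congrFun h (insert i I)
      rw [hval, if_pos (Finset.mem_insert_self _ _), Finset.erase_insert h1, if_neg] at h3
      · exact h3
      · rw [Finset.mem_insert]
        rintro (h4 | h4)
        · exact hij h4.symm
        · exact h2 h4
  · intro h
    funext I
    rw [hval]
    by_cases h1 : i ∈ I
    · have h2 := congrFun h (I.erase i)
      rw [mg, if_neg (Finset.notMem_erase _ _)] at h2
      rw [if_pos h1]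
      by_cases h3 : j ∈ I
      · rw [if_pos (Finset.mem_erase.2 ⟨Ne.symm hij, h3⟩), Finset.erase_right_comm,
          Finset.insert_erase (Finset.mem_erase.2 ⟨hij, h1⟩)] at h2
        rw [if_pos h3]
        exact h2
      · rw [if_neg (fun h4 => h3 (Finset.mem_of_mem_erase h4))] at h2
        rw [if_neg h3]
        exact h2
    · rw [if_neg h1, zero_sub]
      by_cases h3 : j ∈ I
      · have h2 := congrFun h (I.erase j)
        rw [mg, if_neg (fun h4 => h1 (Finset.mem_of_mem_erase h4)),
          if_neg (Finset.notMem_erase _ _), sub_zero] at h2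
        rw [if_pos h3, h2]
        simp
      · rw [if_neg h3, neg_zero]
        rfl

variable {β : Type*} [DecidableEq β]

theorem emb_mv (ι : β ↪ α) (c : α → F) (P : Finset α → F) (Q : Finset β → F)
    (h : ∀ J : Finset β, P (J.map ι) = Q J) (J : Finset β) :
    mv c P (J.map ι) = mv (fun x => c (ι x)) Q J := by
  rw [mv, mv, Finset.sum_map]
  refine Finset.sum_congr rfl fun x _ => ?_
  rw [← Finset.map_erase, h]

theorem emb_pr (ι : β ↪ α) (k : ℕ) (c : Fin k → α → F) (J : Finset β) :
    pr k c (J.map ι) = pr k (fun t x => c t (ι x)) J := by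
  induction k generalizing J with
  | zero => simp [pr, un]
  | succ k ih => exact emb_mv ι (c 0) _ _ (fun J => ih (Fin.tail c) J) J

theorem emb_out (ι : β ↪ α) (k : ℕ) (c : Fin k → α → F) (hc : ∀ t x, x ∉ Set.range ι → c t x = 0)
    (I : Finset α) (x : α) (hx : x ∈ I) (hx2 : x ∉ Set.range ι) : pr k c I = 0 := by
  induction k generalizing I with
  | zero =>
    have : I ≠ ∅ := fun h => by simp [h] at hx
    simp [pr, un, this]
  | succ k ih =>
    rw [pr, mv]
    refine Finset.sum_eq_zero fun y hy => ?_
    by_cases hyx : y = x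
    · rw [hyx, hc 0 x hx2, zero_mul]
    · rw [ih (Fin.tail c) (fun t x hx => hc t.succ x hx) _ (Finset.mem_erase.2 ⟨Ne.symm hyx, hx⟩),
        mul_zero]

theorem emb_iff (ι : β ↪ α) (k : ℕ) (c : Fin k → α → F)
    (hc : ∀ t x, x ∉ Set.range ι → c t x = 0) :
    pr k c = 0 ↔ pr k (fun t x => c t (ι x)) = 0 := by
  constructor
  · intro h
    funext J
    rw [← emb_pr, h]
    rfl
  · intro h
    funext I
    by_cases hI : ∀ x ∈ I, x ∈ Set.range ι
    · obtain ⟨J, hJ⟩ : ∃ J : Finset β, J.map ι = I := by
        refine ⟨I.preimage ι ι.injective.injOn, ?_⟩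
        ext x
        rw [Finset.mem_map]
        constructor
        · rintro ⟨y, hy, rfl⟩
          exact Finset.mem_preimage.1 hy
        · intro hx
          obtain ⟨y, rfl⟩ := hI x hx
          exact ⟨y, Finset.mem_preimage.2 hx, rfl⟩
      rw [← hJ, emb_pr, h]
      rfl
    · push Not at hI
      obtain ⟨x, hx, hx2⟩ := hI
      exact emb_out ι k c hc I x hx hx2

end alg

variable {F : Type*} [Field F] [Fintype F]

/-- the merging of two coordinates, as an equivalence -/
noncomputable def eqv (n k : ℕ) (i j : Fin (n + 1)) :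
    (Fin k → Fin (n + 1) → F) ≃ (Fin k → F) × (Fin k → Fin n → F) where
  toFun c := (fun t => c t i, fun t x => mc i j (c t) (i.succAbove x))
  invFun p := fun t => i.insertNth (α := fun _ => F) (p.1 t)
    (fun x => p.2 t x + if i.succAbove x = j then p.1 t else 0)
  left_inv c := by
    funext t x
    rcases Fin.eq_self_or_eq_succAbove i x with h | ⟨y, h⟩
    · rw [h]
      simp
    · rw [h]
      simp only [mc, if_neg (Fin.succAbove_ne i y), Fin.insertNth_apply_succAbove]
      ring
  right_inv p := by
    refine Prod.ext ?_ ?_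
    · funext t
      simp
    · funext t x
      simp only [mc, if_neg (Fin.succAbove_ne i x), Fin.insertNth_apply_succAbove,
        Fin.insertNth_apply_same]
      ring

/-- the number of `k`-tuples of linear forms in `n` variables whose product is zero -/
noncomputable def N (F : Type*) [Field F] [Fintype F] (n k : ℕ) : ℝ :=
  ∑ c : Fin k → Fin n → F, if pr k c = 0 then (1 : ℝ) else 0

theorem merge (n k : ℕ) {i j : Fin (n + 1)} (hij : i ≠ j) :
    ∑ c : Fin k → Fin (n + 1) → F,
      (if mv (Pi.single i 1 - Pi.single j 1) (pr k c) = 0 then (1 : ℝ) else 0) =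
      (Fintype.card F : ℝ) ^ k * N F n k := by
  have h : ∀ c : Fin k → Fin (n + 1) → F,
      (mv (Pi.single i 1 - Pi.single j 1) (pr k c) = 0 ↔ pr k (eqv n k i j c).2 = 0) := by
    intro c
    rw [mg_iff hij, mg_pr hij, emb_iff (Fin.succAboveEmb i) k]
    · rfl
    · intro t x hx
      have : x = i := by
        by_contra hne
        obtain ⟨y, hy⟩ := Fin.exists_succAbove_eq hne
        exact hx ⟨y, hy⟩
      rw [this, mc, if_pos rfl]
  rw [Fintype.sum_equiv (eqv n k i j) _
    (fun p => if pr k p.2 = 0 then (1 : ℝ) else 0) (fun c => by simp only [h c]),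
    Fintype.sum_prod_type]
  change ∑ x : Fin k → F, N F n k = _
  rw [Finset.sum_const, Finset.card_univ, Fintype.card_fun, Fintype.card_fin, nsmul_eq_mul]
  push_cast
  rfl

theorem sum_E (n k : ℕ) : ∑ c : Fin k → Fin (n + 1) → F, E (pr k c) =
    (n + 1) * (Fintype.card F : ℝ) ^ ((n + 1) * k) +
      (n + 1) * n * ((Fintype.card F : ℝ) ^ k * N F n k) := by
  unfold E
  rw [Finset.sum_comm]
  have h : ∀ i : Fin (n + 1), ∑ c : Fin k → Fin (n + 1) → F, ∑ j : Fin (n + 1),
      (if mv (Pi.single i 1 - Pi.single j 1) (pr k c) = 0 then (1 : ℝ) else 0) =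
      (Fintype.card F : ℝ) ^ ((n + 1) * k) + n * ((Fintype.card F : ℝ) ^ k * N F n k) := by
    intro i
    rw [Finset.sum_comm, ← Finset.add_sum_erase _ _ (Finset.mem_univ i)]
    congr 1
    · have : ∀ c : Fin k → Fin (n + 1) → F,
          (if mv (Pi.single i 1 - Pi.single i 1) (pr k c) = 0 then (1 : ℝ) else 0) = 1 := by
        intro c
        rw [sub_self, if_pos (mv_zero _)]
      simp only [this]
      simp [Finset.card_univ, ← pow_mul]
    · rw [Finset.sum_congr rfl fun j hj => merge n k (Ne.symm (Finset.ne_of_mem_erase hj))]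
      simp
  rw [Finset.sum_congr rfl fun i _ => h i]
  simp
  ring

theorem sum_K (n k : ℕ) : ∑ c : Fin k → Fin n → F, ((K (pr k c)).card : ℝ) = N F n (k + 1) := by
  rw [N, Fintype.sum_equiv (Fin.consEquiv (fun _ : Fin (k + 1) => (Fin n → F))).symm
    (fun c : Fin (k + 1) → Fin n → F => if pr (k + 1) c = 0 then (1 : ℝ) else 0)
    (fun p : (Fin n → F) × (Fin k → Fin n → F) => if mv p.1 (pr k p.2) = 0 then (1 : ℝ) else 0)
    (fun c => rfl), Fintype.sum_prod_type_right]
  refine Finset.sum_congr rfl fun c _ => ?_
  rw [K, Finset.card_filter]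
  push_cast
  rfl

end Pool.Agent.Q218.PF
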