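import Pool.Agent.Q218.PF.Rec

/-! Permanents are products of linear forms. -/

set_option autoImplicit false
set_option linter.unusedSectionVars false

open scoped BigOperators Classical

namespace Pool.Agent.Q218.PF

section alg

variable {F : Type*} [Field F] {α : Type*} [DecidableEq α] [Fintype α]

theorem pr_sum (k : ℕ) (c : Fin k → α → F) (I : Finset α) :
    pr k c I = ∑ f : Fin k → α,
      if Function.Injective f ∧ Finset.univ.image f = I then ∏ t, c t (f t) else 0 := by
  induction k generalizing I with
  | zero =>
    rw [Fintype.sum_unique]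
    simp only [pr, un]
    have h1 : (Finset.univ.image (default : Fin 0 → α)) = ∅ := by simp
    rw [h1]
    simp [Function.injective_of_subsingleton, eq_comm]
  | succ k ih =>
    rw [pr, mv, Fintype.sum_equiv (Fin.consEquiv (fun _ : Fin (k + 1) => α)).symm
      (fun f : Fin (k + 1) → α => if Function.Injective f ∧ Finset.univ.image f = I then
        ∏ t, c t (f t) else 0)
      (fun p : α × (Fin k → α) => if p.1 ∈ I then
        (if Function.Injective p.2 ∧ Finset.univ.image p.2 = I.erase p.1 then
          c 0 p.1 * ∏ t, c t.succ (p.2 t) else 0) else 0) ?_, Fintype.sum_prod_type]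
    · rw [← Finset.sum_filter_add_sum_filter_not Finset.univ (fun i => i ∈ I)]
      have h0 : ∑ x ∈ Finset.univ.filter (fun i => i ∉ I), ∑ y : Fin k → α,
          (if x ∈ I then (if Function.Injective y ∧ Finset.univ.image y = I.erase x then
            c 0 x * ∏ t, c t.succ (y t) else 0) else 0) = 0 := by
        refine Finset.sum_eq_zero fun x hx => Finset.sum_eq_zero fun y _ => ?_
        rw [if_neg (Finset.mem_filter.1 hx).2]
      rw [h0, add_zero]
      have hI : Finset.univ.filter (fun i => i ∈ I) = I := by ext; simp
      rw [hI]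
      refine Finset.sum_congr rfl fun x hx => ?_
      rw [ih, Finset.mul_sum]
      refine Finset.sum_congr rfl fun y _ => ?_
      rw [if_pos hx]
      split_ifs with h1
      · rfl
      · rw [mul_zero]
    · intro f
      obtain ⟨x, y, rfl⟩ : ∃ x y, f = Fin.cons x y := ⟨f 0, Fin.tail f, (Fin.cons_self_tail f).symm⟩
      have e : (Fin.consEquiv (fun _ : Fin (k + 1) => α)).symm (Fin.cons x y) = (x, y) := by
        rw [Equiv.symm_apply_eq]
        rfl
      rw [e]
      have e1 : (Function.Injective (Fin.cons x y : Fin (k + 1) → α) ∧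
          Finset.univ.image (Fin.cons x y : Fin (k + 1) → α) = I) ↔
          (x ∈ I ∧ Function.Injective y ∧ Finset.univ.image y = I.erase x) := by
        have h1 : Finset.univ.image (Fin.cons x y : Fin (k + 1) → α) =
            insert x (Finset.univ.image y) := by
          ext a
          simp only [Finset.mem_image, Finset.mem_univ, true_and, Finset.mem_insert,
            Fin.exists_fin_succ, Fin.cons_zero, Fin.cons_succ]
          constructor
          · rintro (h | h)
            · exact Or.inl h.symm
            · exact Or.inr h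
          · rintro (h | h)
            · exact Or.inl h.symm
            · exact Or.inr h
        rw [Fin.cons_injective_iff, h1]
        have h2 : x ∉ Set.range y ↔ x ∉ Finset.univ.image y := by simp
        rw [h2]
        constructor
        · rintro ⟨⟨h3, h4⟩, h5⟩
          refine ⟨h5 ▸ Finset.mem_insert_self _ _, h4, ?_⟩
          rw [← h5, Finset.erase_insert h3]
        · rintro ⟨h3, h4, h5⟩
          refine ⟨⟨?_, h4⟩, ?_⟩
          · rw [h5]
            exact Finset.notMem_erase _ _
          · rw [h5, Finset.insert_erase h3]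
      simp only [e1]
      by_cases h1 : x ∈ I
      · simp only [h1, true_and, if_true]
        split_ifs with h2
        · rw [Fin.prod_univ_succ]
          simp
        · rfl
      · simp [h1]

theorem pr_perm (n : ℕ) (c : Fin n → Fin n → F) :
    pr n c Finset.univ = (Matrix.of fun x t => c t x).permanent := by
  rw [pr_sum, Matrix.permanent, ← Finset.sum_filter]
  symm
  refine Finset.sum_bij (fun (σ : Equiv.Perm (Fin n)) _ => (σ : Fin n → Fin n)) ?_ ?_ ?_ ?_
  · intro σ _
    rw [Finset.mem_filter]
    refine ⟨Finset.mem_univ _, σ.injective, ?_⟩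
    rw [Finset.image_univ_of_surjective σ.surjective]
  · intro σ _ τ _ h
    exact DFunLike.coe_injective h
  · intro f hf
    rw [Finset.mem_filter] at hf
    exact ⟨Equiv.ofBijective f (Finite.injective_iff_bijective.1 hf.2.1), Finset.mem_univ _, rfl⟩
  · intro σ _
    rfl

end alg

variable {F : Type*} [Field F] [Fintype F]

/-- the values of a nonzero linear functional -/
theorem lin_count {n : ℕ} (v : Fin (n + 1) → F) (hv : v ≠ 0) (a : F) :
    ∑ d : Fin (n + 1) → F, (if ∑ i, d i * v i = a then (1 : ℝ) else 0) =
      (Fintype.card F : ℝ) ^ n := by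
  obtain ⟨i0, hi0⟩ := Function.ne_iff.1 hv
  have hi0' : v i0 ≠ 0 := hi0
  have h1 : ∀ b : F, ∑ d : Fin (n + 1) → F, (if ∑ i, d i * v i = b then (1 : ℝ) else 0) =
      ∑ d : Fin (n + 1) → F, (if ∑ i, d i * v i = a then (1 : ℝ) else 0) := by
    intro b
    refine Fintype.sum_equiv (Equiv.addRight (Pi.single i0 ((a - b) / v i0))) _ _ fun d => ?_
    have h2 : ∑ i, (Equiv.addRight (Pi.single i0 ((a - b) / v i0)) d) i * v i =
        ∑ i, d i * v i + (a - b) := by
      simp only [Equiv.coe_addRight, Pi.add_apply, add_mul, Finset.sum_add_distrib]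
      congr 1
      rw [Finset.sum_eq_single i0]
      · rw [Pi.single_eq_same]
        field_simp
      · intro j _ hj
        rw [Pi.single_eq_of_ne hj, zero_mul]
      · intro h
        exact absurd (Finset.mem_univ _) h
    rw [h2]
    have h3 : (∑ i, d i * v i = b) ↔ (∑ i, d i * v i + (a - b) = a) := by
      constructor
      · intro h
        rw [h]
        ring
      · intro h
        linear_combination h
    simp only [h3]
  have h4 : ∑ b : F, ∑ d : Fin (n + 1) → F, (if ∑ i, d i * v i = b then (1 : ℝ) else 0) =
      (Fintype.card F : ℝ) ^ (n + 1) := by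
    rw [Finset.sum_comm]
    simp
  rw [Finset.sum_congr rfl fun b _ => h1 b, Finset.sum_const, Finset.card_univ, nsmul_eq_mul,
    pow_succ, mul_comm] at h4
  exact mul_right_cancel₀ (q_pos F).ne' h4

/-- one more factor of the permanent -/
theorem last_count {n : ℕ} (P : Finset (Fin (n + 1)) → F) (hP : Hom n P) (a : F) :
    ∑ d : Fin (n + 1) → F, (if mv d P Finset.univ = a then (1 : ℝ) else 0) =
      if P = 0 then (if a = 0 then (Fintype.card F : ℝ) ^ (n + 1) else 0)
        else (Fintype.card F : ℝ) ^ n := by
  split_ifs with h1 h2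
  · have : ∀ d : Fin (n + 1) → F, (if mv d P Finset.univ = a then (1 : ℝ) else 0) = 1 := by
      intro d
      rw [h1, mv_zero', h2]
      simp
    rw [Finset.sum_congr rfl fun d _ => this d]
    simp
  · refine Finset.sum_eq_zero fun d _ => if_neg ?_
    rw [h1, mv_zero']
    exact fun h => h2 h.symm
  · refine lin_count (fun i => P (Finset.univ.erase i)) ?_ a
    intro h
    apply h1
    funext I
    by_cases hI : I.card = n
    · have h3 : Iᶜ.card = 1 := by
        rw [Finset.card_compl, Fintype.card_fin]
        omega
      obtain ⟨i, hi⟩ := Finset.card_eq_one.1 h3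
      have h4 : I = Finset.univ.erase i := by
        rw [← compl_compl I, hi]
        ext x
        simp
      rw [h4]
      exact congrFun h i
    · exact hP I hI

/-- **the distribution of the permanent** -/
theorem dist (n : ℕ) (a : F) :
    ((Finset.univ.filter fun A : Matrix (Fin (n + 1)) (Fin (n + 1)) F => A.permanent = a).card : ℝ)
      / Fintype.card (Matrix (Fin (n + 1)) (Fin (n + 1)) F) =
      (1 - p F (n + 1) n) / Fintype.card F + if a = 0 then p F (n + 1) n else 0 := by
  have hq := q_pos F
  have h1 : ((Finset.univ.filter fun A : Matrix (Fin (n + 1)) (Fin (n + 1)) F =>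
      A.permanent = a).card : ℝ) = ∑ c : Fin (n + 1) → Fin (n + 1) → F,
        if pr (n + 1) c Finset.univ = a then (1 : ℝ) else 0 := by
    rw [Finset.card_filter]
    push_cast
    let e : Matrix (Fin (n + 1)) (Fin (n + 1)) F ≃ (Fin (n + 1) → Fin (n + 1) → F) :=
      { toFun := fun A t x => A x t
        invFun := fun c => Matrix.of fun x t => c t x
        left_inv := fun A => rfl
        right_inv := fun c => rfl }
    refine Fintype.sum_equiv e _ _ fun A => ?_
    rw [pr_perm]
    rfl
  have h2 : ∑ c : Fin (n + 1) → Fin (n + 1) → F,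
        (if pr (n + 1) c Finset.univ = a then (1 : ℝ) else 0) =
      ∑ c : Fin n → Fin (n + 1) → F, ∑ d : Fin (n + 1) → F,
        (if mv d (pr n c) Finset.univ = a then (1 : ℝ) else 0) := by
    rw [Fintype.sum_equiv (Fin.consEquiv (fun _ : Fin (n + 1) => (Fin (n + 1) → F))).symm
      (fun c : Fin (n + 1) → Fin (n + 1) → F =>
        if pr (n + 1) c Finset.univ = a then (1 : ℝ) else 0)
      (fun p : (Fin (n + 1) → F) × (Fin n → Fin (n + 1) → F) =>
        if mv p.1 (pr n p.2) Finset.univ = a then (1 : ℝ) else 0)
      (fun c => rfl), Fintype.sum_prod_type_right]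
  have h3 : ∑ c : Fin n → Fin (n + 1) → F, ∑ d : Fin (n + 1) → F,
        (if mv d (pr n c) Finset.univ = a then (1 : ℝ) else 0) =
      (Fintype.card F : ℝ) ^ n * ((Fintype.card F : ℝ) ^ ((n + 1) * n) - N F (n + 1) n) +
        (if a = 0 then (Fintype.card F : ℝ) ^ (n + 1) * N F (n + 1) n else 0) := by
    have h4 : ∀ c : Fin n → Fin (n + 1) → F, ∑ d : Fin (n + 1) → F,
        (if mv d (pr n c) Finset.univ = a then (1 : ℝ) else 0) =
        (Fintype.card F : ℝ) ^ n * (1 - if pr n c = 0 then (1 : ℝ) else 0) +
        (if a = 0 then (Fintype.card F : ℝ) ^ (n + 1) * (if pr n c = 0 then (1 : ℝ) else 0)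
          else 0) := by
      intro c
      rw [last_count _ (hom_pr n c)]
      by_cases h5 : pr n c = 0
      · by_cases h6 : a = 0
        · simp [h5, h6]
        · simp [h5, h6]
      · by_cases h6 : a = 0
        · simp [h5, h6]
        · simp [h5, h6]
    rw [Finset.sum_congr rfl fun c _ => h4 c, Finset.sum_add_distrib, ← Finset.mul_sum,
      Finset.sum_sub_distrib]
    congr 1
    · rw [N]
      congr 2
      simp [Finset.card_univ, ← pow_mul]
    · split_ifs with h6
      · rw [← Finset.mul_sum, N]
      · simp
  rw [h1, h2, h3]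
  have h4 : (Fintype.card (Matrix (Fin (n + 1)) (Fin (n + 1)) F) : ℝ) =
      (Fintype.card F : ℝ) ^ ((n + 1) * n) * (Fintype.card F : ℝ) ^ n * Fintype.card F := by
    have : Fintype.card (Matrix (Fin (n + 1)) (Fin (n + 1)) F) =
        Fintype.card F ^ ((n + 1) * (n + 1)) := by
      rw [Fintype.card_congr (Matrix.of (m := Fin (n + 1)) (n := Fin (n + 1)) (α := F)).symm,
        Fintype.card_fun, Fintype.card_fun, Fintype.card_fin, ← pow_mul]
    rw [this]
    push_cast
    rw [← pow_add, ← pow_succ]
    congr 1
  rw [h4, p]
  split_ifs with h5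
  · rw [pow_succ]
    field_simp
  · field_simp
    ring

end Pool.Agent.Q218.PF
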