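import Pool.Agent.Q218.PF.Mrg

/-! The recursive inequality for the probability that a product of random linear forms vanishes, and
the resulting bound. -/

set_option autoImplicit false
set_option linter.unusedSectionVars false

open scoped BigOperators Classical

namespace Pool.Agent.Q218.PF

theorem num1 {q n A B C x y z : ℝ} (hn : 0 < n + 1) (hA : 0 < A) (hB : 0 < B) (hC : 0 < C)
    (h : q * ((n + 1) ^ 2 * x) ≤ 2 * C * ((n + 1) * (A * B) + (n + 1) * n * (B * y)) +
      (q - 2) * ((n + 1) ^ 2 * C) * z) :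
    q * (x / (A * B * C)) ≤ 2 * (1 / (n + 1) + n / (n + 1) * (y / A)) +
      (q - 2) * (z / (A * B)) := by
  have h3 : q * (x / (A * B * C)) =
      (q * ((n + 1) ^ 2 * x)) / ((n + 1) ^ 2 * (A * B * C)) := by
    field_simp
  have h4 : 2 * (1 / (n + 1) + n / (n + 1) * (y / A)) + (q - 2) * (z / (A * B)) =
      (2 * C * ((n + 1) * (A * B) + (n + 1) * n * (B * y)) +
        (q - 2) * ((n + 1) ^ 2 * C) * z) / ((n + 1) ^ 2 * (A * B * C)) := by
    field_simp
  rw [h3, h4]
  exact div_le_div_of_nonneg_right h (by positivity)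

theorem num2 {q n H r a b c : ℝ} (hq : 0 < q - 2) (hn : 0 < n) (hH : 0 ≤ H)
    (h7 : q * a ≤ 2 * (1 / (n + 1) + n / (n + 1) * b) + (q - 2) * c)
    (h8 : b ≤ H + 2 * (r + 1) / ((q - 2) * n)) (h9 : c ≤ H + 2 * r / ((q - 2) * (n + 1))) :
    a ≤ H + 2 * (r + 1) / ((q - 2) * (n + 1)) := by
  have h10 : n / (n + 1) * b ≤ H + 2 * (r + 1) / ((q - 2) * (n + 1)) := by
    calc n / (n + 1) * b
        ≤ n / (n + 1) * (H + 2 * (r + 1) / ((q - 2) * n)) := by gcongr
      _ = n / (n + 1) * H + 2 * (r + 1) / ((q - 2) * (n + 1)) := by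
          field_simp
      _ ≤ 1 * H + 2 * (r + 1) / ((q - 2) * (n + 1)) := by
          gcongr
          rw [div_le_one (by positivity)]
          linarith
      _ = _ := by rw [one_mul]
  have h11 : q * a ≤ q * (H + 2 * (r + 1) / ((q - 2) * (n + 1))) := by
    calc q * a
        ≤ 2 * (1 / (n + 1) + n / (n + 1) * b) + (q - 2) * c := h7
      _ ≤ 2 * (1 / (n + 1) + (H + 2 * (r + 1) / ((q - 2) * (n + 1)))) +
          (q - 2) * (H + 2 * r / ((q - 2) * (n + 1))) := by
          have := hq.le
          gcongr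
      _ = q * (H + 2 * (r + 1) / ((q - 2) * (n + 1))) := by
          have := hq.ne'
          field_simp
          ring
  exact le_of_mul_le_mul_left h11 (by linarith)

variable (F : Type*) [Field F] [Fintype F]

/-- the probability that the product of `k` linear forms in `n` variables vanishes -/
noncomputable def p (n k : ℕ) : ℝ := N F n k / (Fintype.card F : ℝ) ^ (n * k)

theorem N_zero (n : ℕ) : N F n 0 = 0 := by
  rw [N]
  refine Finset.sum_eq_zero fun c _ => if_neg ?_
  intro h
  have := congrFun h ∅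
  simp [pr, un] at this

theorem N_nonneg (n k : ℕ) : 0 ≤ N F n k :=
  Finset.sum_nonneg fun c _ => by split_ifs <;> norm_num

theorem p_nonneg (n k : ℕ) : 0 ≤ p F n k := div_nonneg (N_nonneg F n k) (by positivity)

/-- one more factor -/
theorem N_succ (n k : ℕ) : N F n (k + 1) ≤
    N F n k * (Fintype.card F : ℝ) ^ n + (Fintype.card F : ℝ) ^ (n * k) *
      (Fintype.card F : ℝ) ^ k := by
  rw [← sum_K]
  calc ∑ c : Fin k → Fin n → F, ((K (pr k c)).card : ℝ)
      ≤ ∑ c : Fin k → Fin n → F, ((if pr k c = 0 then (1 : ℝ) else 0) *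
          (Fintype.card F : ℝ) ^ n + (Fintype.card F : ℝ) ^ k) := by
        refine Finset.sum_le_sum fun c _ => ?_
        by_cases h : pr k c = 0
        · rw [if_pos h, one_mul, h, K_zero, Fintype.card_fin]
          have : (0 : ℝ) ≤ (Fintype.card F : ℝ) ^ k := by positivity
          linarith
        · rw [if_neg h, zero_mul, zero_add]
          exact_mod_cast K_le (hom_pr k c) h
    _ = _ := by
        rw [Finset.sum_add_distrib, ← Finset.sum_mul, N]
        simp [Finset.card_univ, ← pow_mul]

theorem q_pos : (0 : ℝ) < Fintype.card F := by exact_mod_cast Fintype.card_pos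

theorem p_succ (n k : ℕ) : p F n (k + 1) ≤ p F n k +
    (Fintype.card F : ℝ) ^ k / (Fintype.card F : ℝ) ^ n := by
  have hq := q_pos F
  have h := N_succ F n k
  rw [p, p, div_add_div _ _ (by positivity) (by positivity),
    div_le_div_iff₀ (by positivity) (by positivity)]
  calc N F n (k + 1) * ((Fintype.card F : ℝ) ^ (n * k) * (Fintype.card F : ℝ) ^ n)
      ≤ (N F n k * (Fintype.card F : ℝ) ^ n + (Fintype.card F : ℝ) ^ (n * k) *
      (Fintype.card F : ℝ) ^ k) * ((Fintype.card F : ℝ) ^ (n * k) * (Fintype.card F : ℝ) ^ n) := by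
        gcongr
    _ = _ := by
        rw [mul_add n k 1, pow_add, mul_one]

theorem p_zero (n : ℕ) : p F n 0 = 0 := by rw [p, N_zero, zero_div]

/-- the trivial bound -/
theorem p_le (hq : (1 : ℝ) < Fintype.card F) (n k : ℕ) : p F n k ≤
    (Fintype.card F : ℝ) ^ k / (((Fintype.card F : ℝ) - 1) * (Fintype.card F : ℝ) ^ n) := by
  have hq0 := q_pos F
  have hq1 : 0 < (Fintype.card F : ℝ) - 1 := by linarith
  induction k with
  | zero =>
    rw [p_zero]
    positivity
  | succ k ih =>
    refine (p_succ F n k).trans ((add_le_add_left ih _).trans (le_of_eq ?_))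
    rw [pow_succ]
    field_simp
    ring

/-- **the recursion** -/
theorem p_rec (h2 : (2 : F) ≠ 0) (n k : ℕ) (hk : k + 1 ≤ n) :
    (Fintype.card F : ℝ) * p F (n + 1) (k + 1) ≤
      2 * (1 / (n + 1) + n / (n + 1) * p F n k) +
      ((Fintype.card F : ℝ) - 2) * p F (n + 1) k := by
  have hq := q_pos F
  have hn : (0 : ℝ) < n + 1 := by positivity
  have h := Finset.sum_le_sum (s := (Finset.univ : Finset (Fin k → Fin (n + 1) → F)))
    fun c _ => main_all h2 (k := k) (by rw [Fintype.card_fin]; omega) (hom_pr k c)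
  rw [Finset.sum_add_distrib, ← Finset.mul_sum, ← Finset.mul_sum, ← Finset.mul_sum,
    ← Finset.mul_sum, sum_K, sum_E] at h
  change _ ≤ _ + _ * N F (n + 1) k at h
  rw [Fintype.card_fin] at h
  push_cast at h
  rw [p, p, p]
  have e1 : (Fintype.card F : ℝ) ^ ((n + 1) * (k + 1)) =
      (Fintype.card F : ℝ) ^ ((n + 1) * k) * (Fintype.card F : ℝ) ^ (n + 1) := by
    rw [mul_add, pow_add, mul_one]
  have e2 : (Fintype.card F : ℝ) ^ ((n + 1) * k) =
      (Fintype.card F : ℝ) ^ (n * k) * (Fintype.card F : ℝ) ^ k := by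
    rw [← pow_add]
    congr 1
    ring
  rw [e1, e2]
  rw [e2] at h
  exact num1 hn (by positivity) (by positivity) (by positivity) h

/-- **the bound** -/
theorem bound (h2 : (2 : F) ≠ 0) (hq3 : (3 : ℝ) ≤ Fintype.card F) (S : ℕ) (n : ℕ) :
    ∀ r s : ℕ, r + s = S → 1 ≤ s → s ≤ n → p F n (n - s) ≤
      1 / (((Fintype.card F : ℝ) - 1) * (Fintype.card F : ℝ) ^ S) +
        2 * r / (((Fintype.card F : ℝ) - 2) * n) := by
  have hq := q_pos F
  have hq1 : 0 < (Fintype.card F : ℝ) - 1 := by linarith
  have hq2 : 0 < (Fintype.card F : ℝ) - 2 := by linarith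
  induction n with
  | zero =>
    intro r s _ h1 h2
    omega
  | succ n ihn =>
    intro r
    induction r with
    | zero =>
      intro s hs h1 h3
      have h4 := p_le F (by linarith) (n + 1) (n + 1 - s)
      have h5 : (Fintype.card F : ℝ) ^ (n + 1 - s) /
          (((Fintype.card F : ℝ) - 1) * (Fintype.card F : ℝ) ^ (n + 1)) =
          1 / (((Fintype.card F : ℝ) - 1) * (Fintype.card F : ℝ) ^ S) := by
        have h6 : (Fintype.card F : ℝ) ^ (n + 1) =
            (Fintype.card F : ℝ) ^ (n + 1 - s) * (Fintype.card F : ℝ) ^ S := by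
          rw [← pow_add]
          congr 1
          omega
        rw [h6]
        field_simp
      rw [h5] at h4
      simpa using h4
    | succ r ihr =>
      intro s hs h1 h3
      by_cases h4 : s = n + 1
      · rw [h4, Nat.sub_self, p_zero]
        positivity
      · have h5 : n + 1 - s = (n - s) + 1 := by omega
        have h6 : n + 1 - (s + 1) = n - s := by omega
        have h7 := p_rec F h2 n (n - s) (by omega)
        have h8 := ihn (r + 1) s hs h1 (by omega)
        have h9 := ihr (s + 1) (by omega) (by omega) (by omega)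
        rw [h6] at h9
        rw [h5]
        have hn0 : (0 : ℝ) < n := by
          have : 0 < n := by omega
          exact_mod_cast this
        push_cast at *
        exact num2 hq2 hn0 (by positivity) h7 h8 h9

end Pool.Agent.Q218.PF
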